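import Mathlib
import Pool.Agent.R499.Linear
import Pool.Agent.R440.DC.C

/-!
# Q1: valuations of `(1/n) ∑_{k<n} (2k+1) (-1)^k A_k(x)`

In `ℤ[X]` the sum is `n G(X)`, and at `x = 1/4` it is `n²` times an element of `ℤ[1/2]`. For `p = 2` the
number `4x - 1` is a unit.
-/

set_option autoImplicit false

namespace Pool.Agent.Results.MP_2869d0_nt.AperySums

open Finset Pool.Agent.R499.Linear

variable {R : Type*} [CommRing R]

/-- the Apery polynomial `A_n(x) = ∑_{k=0}^n C(n,k)² C(n+k,k)² x^k` -/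
def A (n : ℕ) (x : R) : R :=
  ∑ k ∈ range (n + 1), (n.choose k : R) ^ 2 * ((n + k).choose k : R) ^ 2 * x ^ k

lemma A_ext (x : R) {n N : ℕ} (h : n < N) : A n x = ∑ k ∈ range N, x ^ k * ((b k n : R) * (b k n : R)) := by
  have e : A n x = ∑ k ∈ range (n + 1), x ^ k * ((b k n : R) * (b k n : R)) := by
    unfold A b
    push_cast
    refine sum_congr rfl fun k _ => ?_
    ring
  rw [e]
  apply sum_subset (Finset.range_subset_range.mpr h)
  intro i _ hi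
  rw [b_eq_zero (by simpa using hi)]
  simp

open Polynomial in
/-- there is `G ∈ ℤ[X]` with `∑_{k<n} (2k+1) (-1)^k A_k(X) = n G` -/
lemma exists_G (n : ℕ) : ∃ G : ℤ[X],
    ∑ k ∈ range n, (2 * (k : ℤ[X]) + 1) * (-1) ^ k * A k (X : ℤ[X]) = (n : ℤ[X]) * G := by
  have h : Sp n (fun k => ∑ i ∈ range n, (X : ℤ[X]) ^ i * ((b i k : ℤ[X]) * (b i k : ℤ[X]))) := by
    apply Sp.sum
    intro i _
    exact (Sp.prodBasis n i i).smul _
  have h' : Sp n (fun k => A k (X : ℤ[X])) := by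
    obtain ⟨N, a, ha⟩ := h
    refine ⟨N, a, ?_⟩
    intro k hk
    rw [← ha k hk]
    exact A_ext X hk
  exact h'.dvd_alt_sum

section padic

variable {p : ℕ} [Fact p.Prime]

lemma eval_A (x : ℤ_[p]) (k : ℕ) :
    Polynomial.eval₂ (Int.castRingHom ℤ_[p]) x (A k (Polynomial.X : Polynomial ℤ)) = A k x := by
  unfold A
  simp [Polynomial.eval₂_finsetSum, Polynomial.eval₂_mul, Polynomial.eval₂_pow]

lemma unit_four (hp : p ≠ 2) : IsUnit (4 : ℤ_[p]) := by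
  rw [PadicInt.isUnit_iff]
  by_contra h
  have h1 : ‖(4 : ℤ_[p])‖ < 1 := lt_of_le_of_ne (PadicInt.norm_le_one _) h
  have h2 : ‖((4 : ℤ) : ℤ_[p])‖ < 1 := by exact_mod_cast h1
  rw [PadicInt.norm_int_lt_one_iff_dvd] at h2
  have h3 : p ∣ 4 := by exact_mod_cast h2
  have hpp : p.Prime := Fact.out
  have h4 : p ∣ 2 := hpp.dvd_of_dvd_pow (show p ∣ 2 ^ 2 by simpa using h3)
  exact hp ((Nat.prime_dvd_prime_iff_eq hpp Nat.prime_two).mp h4)

lemma unit_two (hp : p = 2) (x : ℤ_[p]) : IsUnit (4 * x - 1) := by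
  rw [PadicInt.isUnit_iff]
  by_contra h
  have h1 : ‖4 * x - 1‖ < 1 := lt_of_le_of_ne (PadicInt.norm_le_one _) h
  have h2 : ‖((4 : ℤ) : ℤ_[p])‖ < 1 := by
    rw [PadicInt.norm_int_lt_one_iff_dvd, hp]
    norm_num
  have h2' : ‖(4 : ℤ_[p])‖ < 1 := by exact_mod_cast h2
  have h3 : ‖4 * x‖ < 1 := by
    rw [norm_mul]
    calc ‖(4 : ℤ_[p])‖ * ‖x‖ ≤ ‖(4 : ℤ_[p])‖ * 1 :=
          mul_le_mul_of_nonneg_left (PadicInt.norm_le_one x) (norm_nonneg _)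
      _ < 1 := by rw [mul_one]; exact h2'
  have h4 : ‖(4 * x) + (-(4 * x - 1))‖ ≤ max ‖4 * x‖ ‖-(4 * x - 1)‖ := PadicInt.nonarchimedean _ _
  rw [norm_neg] at h4
  have h5 : (4 * x) + (-(4 * x - 1)) = 1 := by ring
  rw [h5, norm_one] at h4
  exact absurd (lt_of_le_of_lt h4 (max_lt h3 h1)) (lt_irrefl _)

/-- the value at `y = 1/4` -/
lemma value_quarter (y : ℤ_[p]) (hy : 4 * y = 1) (m : ℕ) :
    ∑ k ∈ range (m + 1), (2 * (k : ℤ_[p]) + 1) * (-1) ^ k * A k y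
      = ((m : ℤ_[p]) + 1) ^ 2 * ((Pool.Agent.R440.DC.SS m : ℤ_[p]) * y ^ m) := by
  have h := Pool.Agent.R440.DC.SS_eq m
  have hyq : ((y : ℤ_[p]) : ℚ_[p]) = ((1 / 4 : ℚ) : ℚ_[p]) := by
    have h4 : (4 : ℚ_[p]) * ((y : ℤ_[p]) : ℚ_[p]) = 1 := by
      have h1 : ((((4 : ℕ) : ℤ_[p]) * y : ℤ_[p]) : ℚ_[p]) = 1 := by
        have h2 : ((4 : ℕ) : ℤ_[p]) * y = 1 := by exact_mod_cast hy
        rw [h2, PadicInt.coe_one]
      rw [PadicInt.coe_mul, PadicInt.coe_natCast] at h1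
      exact_mod_cast h1
    have h0 : (4 : ℚ_[p]) ≠ 0 := by
      have : ((4 : ℕ) : ℚ_[p]) ≠ 0 := by exact_mod_cast (by norm_num : (4 : ℕ) ≠ 0)
      exact_mod_cast this
    push_cast
    field_simp
    linear_combination h4
  apply PadicInt.ext
  have h' := congrArg (fun z : ℚ => (z : ℚ_[p])) h
  have e1 : ((((m : ℚ) + 1) ^ 2 * ((Pool.Agent.R440.DC.SS m : ℚ) / 4 ^ m) : ℚ) : ℚ_[p])
      = (((((m : ℤ_[p]) + 1) ^ 2 * ((Pool.Agent.R440.DC.SS m : ℤ_[p]) * y ^ m)) : ℤ_[p]) : ℚ_[p]) := by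
    push_cast
    rw [hyq]
    push_cast
    have h4 : (1 / 4 : ℚ_[p]) ^ m * 4 ^ m = 1 := by rw [← mul_pow]; norm_num
    have h5 : (4 : ℚ_[p]) ^ m ≠ 0 := by
      intro h
      rw [h, mul_zero] at h4
      exact zero_ne_one h4
    field_simp
    linear_combination (-(Pool.Agent.R440.DC.SS m : ℚ_[p])) * h4
  have e2 : ((∑ k ∈ range (m + 1), (2 * (k : ℚ) + 1) * (-1) ^ k * Pool.Agent.R440.DC.Aq k : ℚ) : ℚ_[p])
      = ((∑ k ∈ range (m + 1), (2 * (k : ℤ_[p]) + 1) * (-1) ^ k * A k y : ℤ_[p]) : ℚ_[p]) := by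
    unfold A Pool.Agent.R440.DC.Aq Pool.Agent.R440.DC.aa
    rw [PadicInt.coe_sum]
    push_cast
    refine sum_congr rfl fun k _ => ?_
    rw [PadicInt.coe_sum]
    congr 1
    refine sum_congr rfl fun j _ => ?_
    push_cast
    rw [hyq]
    push_cast
    ring
  rw [← e1, ← e2]
  exact h'

/-- the decomposition behind the valuation bound -/
lemma decomp (n : ℕ) (hn : 1 ≤ n) (x : ℤ_[p]) : ∃ U V : ℤ_[p],
    ∑ k ∈ range n, (2 * (k : ℤ_[p]) + 1) * (-1) ^ k * A k x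
      = (n : ℤ_[p]) * ((n : ℤ_[p]) * U + (4 * x - 1) * V) := by
  obtain ⟨G, hG⟩ := exists_G n
  have hev : ∀ z : ℤ_[p], ∑ k ∈ range n, (2 * (k : ℤ_[p]) + 1) * (-1) ^ k * A k z
      = (n : ℤ_[p]) * Polynomial.eval z (G.map (Int.castRingHom ℤ_[p])) := by
    intro z
    have h := congrArg (Polynomial.eval₂ (Int.castRingHom ℤ_[p]) z) hG
    rw [Polynomial.eval₂_finsetSum, Polynomial.eval₂_mul, Polynomial.eval₂_natCast] at h
    rw [Polynomial.eval_map, ← h]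
    apply sum_congr rfl
    intro k _
    rw [Polynomial.eval₂_mul, Polynomial.eval₂_mul, eval_A]
    simp [Polynomial.eval₂_add, Polynomial.eval₂_mul, Polynomial.eval₂_pow]
  rw [hev x]
  by_cases hp : p = 2
  · obtain ⟨u, hu⟩ := unit_two hp x
    refine ⟨0, (↑u⁻¹ : ℤ_[p]) * Polynomial.eval x (G.map (Int.castRingHom ℤ_[p])), ?_⟩
    rw [← hu, mul_zero, zero_add, ← mul_assoc (u : ℤ_[p]), Units.mul_inv, one_mul]
  · obtain ⟨u, hu⟩ := unit_four (p := p) hp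
    set y : ℤ_[p] := (↑u⁻¹ : ℤ_[p]) with hy
    have hy1 : 4 * y = 1 := by
      have := Units.mul_inv u
      rw [hy, ← hu]
      exact this
    obtain ⟨m, rfl⟩ : ∃ m, n = m + 1 := ⟨n - 1, by omega⟩
    have h1 := value_quarter y hy1 m
    rw [hev y] at h1
    have hn0 : (((m + 1 : ℕ)) : ℤ_[p]) ≠ 0 := by exact_mod_cast (Nat.succ_ne_zero m)
    have h2 : Polynomial.eval y (G.map (Int.castRingHom ℤ_[p]))
        = ((m + 1 : ℕ) : ℤ_[p]) * ((Pool.Agent.R440.DC.SS m : ℤ_[p]) * y ^ m) := by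
      apply mul_left_cancel₀ hn0
      rw [h1]
      push_cast
      ring
    obtain ⟨w, hw⟩ := Polynomial.sub_dvd_eval_sub x y (G.map (Int.castRingHom ℤ_[p]))
    refine ⟨(Pool.Agent.R440.DC.SS m : ℤ_[p]) * y ^ m, y * w, ?_⟩
    congr 1
    have h3 : x - y = (4 * x - 1) * y := by
      linear_combination -x * hy1
    rw [← h2]
    linear_combination hw + w * h3

lemma addVal_nonneg (b : ℤ_[p]) : (0 : WithTop ℤ) ≤ Padic.addValuation ((b : ℤ_[p]) : ℚ_[p]) := by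
  by_cases hb : b = 0
  · rw [hb]; simp
  · have hb' : ((b : ℤ_[p]) : ℚ_[p]) ≠ 0 := by simpa using hb
    rw [Padic.addValuation.apply hb']
    have h := PadicInt.valuation_coe_nonneg (x := b)
    exact WithTop.coe_le_coe.mpr h

lemma addVal_mul_le (a b : ℤ_[p]) :
    Padic.addValuation ((a : ℤ_[p]) : ℚ_[p]) ≤ Padic.addValuation (((a * b : ℤ_[p])) : ℚ_[p]) := by
  rw [PadicInt.coe_mul, AddValuation.map_mul]
  exact le_add_of_nonneg_right (addVal_nonneg b)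

/-- **Q1 is true**: for every prime `p`, every `n ≥ 1` and every `x ∈ ℤ_p`,
`ν_p((1/n) ∑_{k<n} (2k+1) (-1)^k A_k(x)) ≥ min(ν_p(n), ν_p(4x-1))`. -/
theorem result (p : ℕ) [Fact p.Prime] (n : ℕ) (hn : 1 ≤ n) (x : ℤ_[p]) :
    min (Padic.addValuation (n : ℚ_[p])) (Padic.addValuation (4 * (x : ℚ_[p]) - 1))
      ≤ Padic.addValuation ((1 / (n : ℚ_[p])) *
          ((∑ k ∈ range n, (2 * (k : ℤ_[p]) + 1) * (-1) ^ k * A k x : ℤ_[p]) : ℚ_[p])) := by
  obtain ⟨U, V, h⟩ := decomp n hn x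
  have hn0 : (n : ℚ_[p]) ≠ 0 := by exact_mod_cast (show n ≠ 0 by omega)
  have e1 : (1 / (n : ℚ_[p])) *
      ((∑ k ∈ range n, (2 * (k : ℤ_[p]) + 1) * (-1) ^ k * A k x : ℤ_[p]) : ℚ_[p])
      = (((n : ℤ_[p]) * U : ℤ_[p]) : ℚ_[p]) + ((((4 * x - 1) * V : ℤ_[p])) : ℚ_[p]) := by
    rw [h]
    push_cast
    field_simp
  rw [e1]
  refine le_trans ?_ (AddValuation.map_add _ _ _)
  apply min_le_min
  · have := addVal_mul_le ((n : ℤ_[p])) U
    simpa using this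
  · have h4 : 4 * (x : ℚ_[p]) - 1 = ((4 * x - 1 : ℤ_[p]) : ℚ_[p]) := by
      push_cast
      rfl
    rw [h4]
    exact addVal_mul_le (4 * x - 1) V

end padic

end Pool.Agent.Results.MP_2869d0_nt.AperySums
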